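import Mathlib
import Pool.Agent.Y114.RM.Stm2

/-!
Job RM-CONT (project RM of helper114): continuity of the determinant of the adjoint action.
-/

set_option autoImplicit false

namespace Pool.Agent.Y620.RM

open Module Pool.Agent.Y114.RM Pool.Agent.Y114.TF

/-- A linear functional of a pointwise continuous family of endomorphisms is continuous. -/
theorem cont_functional {K : Type} [NontriviallyNormedField K] [CompleteSpace K] {V : Type}
    [AddCommGroup V] [Module K V] [TopologicalSpace V] [IsTopologicalAddGroup V]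
    [ContinuousSMul K V] [T2Space V] [FiniteDimensional K V] {Γ : Type} [TopologicalSpace Γ]
    (Y : Γ → End K V) (hY : ∀ x, Continuous fun γ => Y γ x) (c : End K V →ₗ[K] K) :
    Continuous fun γ => c (Y γ) := by
  let v := Module.finBasis K V
  have h1 : ∀ γ, Y γ = v.constr K (fun k => Y γ (v k)) := fun γ => (v.constr_self K (Y γ)).symm
  have h2 : Continuous (c.comp (v.constr K : (Fin (finrank K V) → V) ≃ₗ[K] _).toLinearMap) :=
    LinearMap.continuous_of_finiteDimensional _
  have h3 : Continuous fun γ => (fun k => Y γ (v k)) := continuous_pi fun k => hY (v k)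
  have h4 := h2.comp h3
  refine h4.congr fun γ => ?_
  change c (v.constr K (fun k => Y γ (v k))) = _
  rw [← h1]

/-- The determinant of a pointwise continuous family on a stable subspace. -/
theorem cont_det {K : Type} [NontriviallyNormedField K] [CompleteSpace K] {V : Type}
    [AddCommGroup V] [Module K V] [TopologicalSpace V] [IsTopologicalAddGroup V]
    [ContinuousSMul K V] [T2Space V] [FiniteDimensional K V] {Γ : Type} [TopologicalSpace Γ]
    (A : Γ → End K (End K V)) (hA : ∀ X x, Continuous fun γ => A γ X x)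
    (L : Submodule K (End K V)) (hL : ∀ γ, ∀ X ∈ L, A γ X ∈ L) :
    Continuous fun γ => detOn L (A γ) (hL γ) := by
  let b := Module.finBasis K L
  have h1 : ∀ γ, detOn L (A γ) (hL γ) =
      (LinearMap.toMatrix b b ((A γ).restrict (hL γ))).det := fun γ =>
    (LinearMap.det_toMatrix b _).symm
  have h2 : Continuous fun γ => LinearMap.toMatrix b b ((A γ).restrict (hL γ)) := by
    refine continuous_matrix fun i j => ?_
    obtain ⟨c, hc⟩ := LinearMap.exists_extend (b.coord i)
    have h3 := cont_functional (fun γ => A γ (b j : End K V)) (hA _) c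
    refine h3.congr fun γ => ?_
    rw [LinearMap.toMatrix_apply]
    have h4 := LinearMap.congr_fun hc ((A γ).restrict (hL γ) (b j))
    rw [LinearMap.comp_apply, Submodule.subtype_apply] at h4
    exact h4
  exact h2.matrix_det.congr fun γ => (h1 γ).symm

theorem cont : S_CONT := by
  intro ℓ _ ι _ n Γ _ _ _ ρ hρ L hL
  classical
  have hmul : ∀ γ δ : Γ, ∀ X, AdE (sumRep ρ (γ * δ)) (sumRep ρ (γ * δ)⁻¹) X =
      AdE (sumRep ρ γ) (sumRep ρ γ⁻¹) (AdE (sumRep ρ δ) (sumRep ρ δ⁻¹) X) := by
    intro γ δ X
    simp only [AdE_apply]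
    rw [mul_inv_rev, map_mul, map_mul]
    simp only [mul_assoc]
  let f : Γ →* ℚ_[ℓ] :=
    { toFun := fun γ => detOn L (AdE (sumRep ρ γ) (sumRep ρ γ⁻¹)) (hL γ)
      map_one' := by
        have h : (AdE (sumRep ρ (1 : Γ)) (sumRep ρ (1 : Γ)⁻¹)).restrict (hL 1) = LinearMap.id := by
          refine LinearMap.ext fun X => Subtype.ext ?_
          rw [LinearMap.coe_restrict_apply, AdE_apply, inv_one, map_one, one_mul, mul_one]
          rfl
        unfold detOn
        rw [h, LinearMap.det_id]
      map_mul' := fun γ δ => by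
        have h : (AdE (sumRep ρ (γ * δ)) (sumRep ρ (γ * δ)⁻¹)).restrict (hL (γ * δ)) =
            ((AdE (sumRep ρ γ) (sumRep ρ γ⁻¹)).restrict (hL γ)) ∘ₗ
              ((AdE (sumRep ρ δ) (sumRep ρ δ⁻¹)).restrict (hL δ)) := by
          refine LinearMap.ext fun X => Subtype.ext ?_
          rw [LinearMap.coe_restrict_apply, LinearMap.comp_apply, LinearMap.coe_restrict_apply,
            LinearMap.coe_restrict_apply, hmul]
        unfold detOn
        rw [h, LinearMap.det_comp] }
  have hc : Continuous f := by
    refine cont_det (fun γ => AdE (sumRep ρ γ) (sumRep ρ γ⁻¹)) (fun X x => ?_) L hL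
    have h1 : ∀ (g : Γ → Γ), Continuous g → ∀ y : Γ → (∀ i, Fin (n i) → ℚ_[ℓ]), Continuous y →
        Continuous fun γ => sumRep ρ (g γ) (y γ) := by
      intro g hg y hy
      refine continuous_pi fun i => ?_
      have h2 : ∀ γ, sumRep ρ (g γ) (y γ) i = (LinearMap.toMatrix' (ρ i (g γ))).mulVec (y γ i) := by
        intro γ
        rw [LinearMap.toMatrix'_mulVec]
        rfl
      have h3 : Continuous fun γ => (LinearMap.toMatrix' (ρ i (g γ))).mulVec (y γ i) :=
        ((hρ i).comp hg).matrix_mulVec ((continuous_apply i).comp hy)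
      exact h3.congr fun γ => (h2 γ).symm
    have h4 : Continuous fun γ : Γ => sumRep ρ γ⁻¹ x := h1 _ continuous_inv _ continuous_const
    have h5 : Continuous X := LinearMap.continuous_of_finiteDimensional X
    have h6 := h1 id continuous_id _ (h5.comp h4)
    exact h6
  refine ⟨f.toHomUnits, ?_, fun γ => rfl⟩
  rw [Units.continuous_iff]
  refine ⟨hc, ?_⟩
  have h1 : ∀ γ : Γ, (((f.toHomUnits γ)⁻¹ : ℚ_[ℓ]ˣ) : ℚ_[ℓ]) = f γ⁻¹ := by
    intro γ
    rw [← map_inv]
    rfl
  exact (hc.comp continuous_inv).congr fun γ => (h1 γ).symm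

end Pool.Agent.Y620.RM
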